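import Pool.Agent.Z705.Defs
import Pool.Agent.Z270.C1A

/-! # Z705 C1A: forms and cusps as factorizations for numbers `m`

Adapted from `Pool.Agent.Z270.C1A`. -/

set_option autoImplicit false

namespace Pool.Agent.Y761.Z705

open Finset Pool.Agent.Z700
open Pool.Agent.Z705 (Ok)
open Pool.Agent.Z434.C1A (G Fp_eq G_flip Om Cd)
open Pool.Agent.Z270.C1A (Gm G17_eq jac_neg)

theorem gm_ok {m : ℕ} (hm : Ok m) : Gm m :=
  ⟨hm.2.1, fun h => hm.2.2.1 (Nat.dvd_of_mod_eq_zero h), hm.2.2.2⟩

/-- C1A -/
theorem t_C1A : Pool.Agent.Z705.S_C1A := by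
  classical
  intro m hok h1
  have g := gm_ok hok
  have h24 := g.h8
  have hm0 : (0 : ℤ) < m := by exact_mod_cast g.pos
  have flip : ∑ u ∈ un m, jacobiSym u m * G 11 u m = ∑ u ∈ un m, jacobiSym u m * G 17 u m := by
    refine Finset.sum_nbij' (fun u => m - u) (fun u => m - u) ?_ ?_ ?_ ?_ ?_
    · intro u hu
      unfold un at hu ⊢
      rw [Finset.mem_filter, Finset.mem_range] at hu ⊢
      have hu0 : u ≠ 0 := by
        rintro rfl
        have := hu.2
        rw [Nat.coprime_zero_left] at this
        omega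
      refine ⟨by omega, ?_⟩
      rw [Nat.coprime_comm, Nat.coprime_self_sub_right hu.1.le, Nat.coprime_comm]
      exact hu.2
    · intro u hu
      unfold un at hu ⊢
      rw [Finset.mem_filter, Finset.mem_range] at hu ⊢
      have hu0 : u ≠ 0 := by
        rintro rfl
        have := hu.2
        rw [Nat.coprime_zero_left] at this
        omega
      refine ⟨by omega, ?_⟩
      rw [Nat.coprime_comm, Nat.coprime_self_sub_right hu.1.le, Nat.coprime_comm]
      exact hu.2
    · intro u hu
      unfold un at hu
      rw [Finset.mem_filter, Finset.mem_range] at hu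
      omega
    · intro u hu
      unfold un at hu
      rw [Finset.mem_filter, Finset.mem_range] at hu
      omega
    · intro u hu
      unfold un at hu
      rw [Finset.mem_filter, Finset.mem_range] at hu
      rw [G_flip _ _ hm0]
      have e1 : ((m - u : ℕ) : ℤ) = (m : ℤ) - u := by
        rw [Nat.cast_sub hu.1.le]
      rw [e1]
      congr 1
      have e2 : jacobiSym ((m : ℤ) - u) m = jacobiSym (-u) m := by
        apply jacobiSym.mod_left'
        rw [show (m : ℤ) - u = -u + m by ring]
        exact Int.add_emod_right _ _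
      rw [e2, jac_neg (by omega)]
  have lhs : ∑ u ∈ un m, jacobiSym u m * Fp u m = -2 * ∑ u ∈ un m, jacobiSym u m * G 17 u m := by
    have : ∀ u ∈ un m, jacobiSym u m * Fp u m =
        -(jacobiSym u m * G 11 u m + jacobiSym u m * G 17 u m) := by
      intro u _
      rw [Fp_eq _ _ hm0]
      ring
    rw [Finset.sum_congr rfl this, Finset.sum_neg_distrib, Finset.sum_add_distrib, flip]
    ring
  rw [lhs]
  congr 1
  have rhs1 : ∀ u ∈ un m, jacobiSym u m * G 17 u m = ∑ w ∈ Om m, (if Cd m u w then
      ps3 w.2.1 w.2.2 ((3 * m - w.1) / w.2.1) (w.1 / w.2.2) * jacobiSym u m else 0) := by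
    intro u _
    rw [G17_eq g, Finset.mul_sum]
    refine Finset.sum_congr rfl fun w _ => ?_
    split_ifs
    · ring
    · ring
  rw [Finset.sum_congr rfl rhs1, Finset.sum_comm]
  unfold Om
  rw [Finset.sum_sigma]
  refine Finset.sum_congr rfl fun T _ => ?_
  rw [Finset.sum_product]
  refine Finset.sum_congr rfl fun a _ => ?_
  refine Finset.sum_congr rfl fun a' _ => ?_
  rw [Finset.mul_sum, Finset.sum_filter]
  refine Finset.sum_congr rfl fun u _ => ?_
  unfold Cd
  simp only

end Pool.Agent.Y761.Z705

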